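import Mathlib

open MeasureTheory Filter Topology Set
open scoped ENNReal

namespace Pool.Agent.Results.MP_5b7a98_an.MuCompactIsCompact

/-- `A` is mu-compact: for every compact `K ⊆ A`, the set of Borel probability measures on `A`
whose barycentre (Bochner integral of the inclusion) lies in `K` is compact for the weak topology. -/
def MuCompact {E : Type*} [NormedAddCommGroup E] [NormedSpace ℝ E] (A : Set E) : Prop :=
  letI : MeasurableSpace A := borel A
  haveI : BorelSpace A := ⟨rfl⟩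
  ∀ K : Set E, K ⊆ A → IsCompact K →
    IsCompact {μ : ProbabilityMeasure A | (∫ x : A, (x : E) ∂(μ : Measure A)) ∈ K}

/-- Every nonempty closed bounded convex mu-compact subset of `E` is (norm-)compact. -/
def MuCompactSetsAreCompact (E : Type*) [NormedAddCommGroup E] [NormedSpace ℝ E] : Prop :=
  ∀ A : Set E, A.Nonempty → IsClosed A → Bornology.IsBounded A → Convex ℝ A → MuCompact A →
    IsCompact A

/-- The quantitative convexity property used. -/
def UC (E : Type*) [NormedAddCommGroup E] [NormedSpace ℝ E] (p : ℝ) : Prop :=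
  ∀ ε > (0:ℝ), ∃ C : ℝ, 0 ≤ C ∧ ∀ f g : E,
    ‖f - g‖ ^ p ≤ ε * (‖f‖ ^ p + ‖g‖ ^ p) + C * (‖f‖ ^ p / 2 + ‖g‖ ^ p / 2 - ‖(1/2 : ℝ) • (f + g)‖ ^ p)

section tight

variable {E : Type*} [NormedAddCommGroup E] [NormedSpace ℝ E] [CompleteSpace E]

/-- A separated sequence of a mu-compact set: no sequence of measures supported on the tails can
have barycentres in a compact set. -/
lemma no_escape (A : Set E) (hA : MuCompact A) (x : ℕ → E) (hxA : ∀ n, x n ∈ A)
    {δ : ℝ} (hδ : 0 < δ) (hx : ∀ m n, m ≠ n → δ ≤ dist (x m) (x n))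
    (y : ℕ → E) (hy : ∀ n, y n ∈ convexHull ℝ (x '' {i | n ≤ i}))
    (K : Set E) (hKA : K ⊆ A) (hK : IsCompact K) (hyK : ∀ n, y n ∈ K) : False := by
  let : MeasurableSpace A := borel A
  have : BorelSpace A := ⟨rfl⟩
  have hc := hA K hKA hK
  have hinj : Function.Injective x := by
    intro m n hmn
    by_contra hne
    have := hx m n hne
    rw [hmn, dist_self] at this
    linarith
  -- measures
  have key : ∀ n, ∃ μ : ProbabilityMeasure A, (∫ a : A, (a : E) ∂(μ : Measure A)) = y n ∧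
      (μ : Measure A) {a : A | ∃ i, n ≤ i ∧ (a : E) = x i} = 1 := by
    intro n
    have h1 := hy n
    rw [_root_.convexHull_eq] at h1
    obtain ⟨ι, t, w, z, hw0, hw1, hz, hcm⟩ := h1
    have hzA : ∀ i ∈ t, z i ∈ A := by
      intro i hi
      obtain ⟨j, _, hj⟩ := hz i hi
      rw [← hj]; exact hxA j
    classical
    let z' : ι → A := fun i => if h : z i ∈ A then ⟨z i, h⟩ else ⟨x 0, hxA 0⟩
    have hz' : ∀ i ∈ t, (z' i : E) = z i := by
      intro i hi
      simp only [z', dif_pos (hzA i hi)]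
    let μ : Measure A := ∑ i ∈ t, ENNReal.ofReal (w i) • Measure.dirac (z' i)
    have hμ1 : μ Set.univ = 1 := by
      simp only [μ, Measure.coe_finsetSum, Finset.sum_apply, Measure.smul_apply,
        Measure.dirac_apply_of_mem (Set.mem_univ _), smul_eq_mul, mul_one]
      rw [← ENNReal.ofReal_sum_of_nonneg hw0, hw1, ENNReal.ofReal_one]
    have hpm : IsProbabilityMeasure μ := ⟨hμ1⟩
    refine ⟨⟨μ, hpm⟩, ?_, ?_⟩
    · change (∫ a : A, (a : E) ∂μ) = y n
      rw [integral_finsetSum_measure]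
      · rw [← hcm, Finset.centerMass_eq_of_sum_1 _ _ hw1]
        refine Finset.sum_congr rfl fun i hi => ?_
        rw [integral_smul_measure, integral_dirac, ENNReal.toReal_ofReal (hw0 i hi), hz' i hi]
      · intro i hi
        refine Integrable.smul_measure ?_ ENNReal.ofReal_ne_top
        exact integrable_dirac (by simp)
    · change μ _ = 1
      have hmem : ∀ i ∈ t, z' i ∈ {a : A | ∃ i, n ≤ i ∧ (a : E) = x i} := by
        intro i hi
        obtain ⟨j, hj, hj'⟩ := hz i hi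
        exact ⟨j, hj, by rw [hz' i hi, hj']⟩
      simp only [μ, Measure.coe_finsetSum, Finset.sum_apply, Measure.smul_apply, smul_eq_mul]
      rw [← hμ1]
      simp only [μ, Measure.coe_finsetSum, Finset.sum_apply, Measure.smul_apply,
        Measure.dirac_apply_of_mem (Set.mem_univ _), smul_eq_mul]
      refine Finset.sum_congr rfl fun i hi => ?_
      rw [Measure.dirac_apply_of_mem (hmem i hi)]
  choose μ hμb hμs using key
  -- closed tails
  have hclosed : ∀ n, IsClosed {a : A | ∃ i, n ≤ i ∧ (a : E) = x i} := by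
    intro n
    have h2 : IsClosed (x '' {i | n ≤ i}) := by
      refine Metric.isClosed_of_pairwise_le_dist hδ ?_
      rintro _ ⟨i, _, rfl⟩ _ ⟨j, _, rfl⟩ hne
      exact hx i j (fun h => hne (by rw [h]))
    have : {a : A | ∃ i, n ≤ i ∧ (a : E) = x i} = (Subtype.val : A → E) ⁻¹' (x '' {i | n ≤ i}) := by
      ext a
      constructor
      · rintro ⟨i, hi, h⟩; exact ⟨i, hi, h.symm⟩
      · rintro ⟨i, hi, h⟩; exact ⟨i, hi, h.symm⟩
    rw [this]
    exact h2.preimage continuous_subtype_val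
  obtain ⟨ν, -, hν⟩ := hc.exists_mapClusterPt (f := atTop) (u := μ) (by
    rw [le_principal_iff, mem_map]
    exact Filter.univ_mem' fun n => by
      change (∫ a : A, (a : E) ∂(μ n : Measure A)) ∈ K
      rw [hμb]; exact hyK n)
  rw [mapClusterPt_iff_ultrafilter] at hν
  obtain ⟨U, hU, hUν⟩ := hν
  have htail : ∀ n, (ν : Measure A) {a : A | ∃ i, n ≤ i ∧ (a : E) = x i} = 1 := by
    intro n
    have h3 := FiniteMeasure.limsup_measure_closed_le_of_tendsto
      (ProbabilityMeasure.tendsto_nhds_iff_toFiniteMeasure_tendsto_nhds _ |>.1 hUν) (hclosed n)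
    refine le_antisymm prob_le_one ?_
    have h4 : (1 : ENNReal) ≤ limsup (fun m => (μ m : Measure A) {a : A | ∃ i, n ≤ i ∧ (a : E) = x i}) (U : Filter ℕ) := by
      refine le_limsup_of_frequently_le ?_
      refine Eventually.frequently ?_
      refine hU ?_
      filter_upwards [eventually_ge_atTop n] with m hm
      calc (1 : ENNReal) = (μ m : Measure A) {a : A | ∃ i, m ≤ i ∧ (a : E) = x i} := (hμs m).symm
        _ ≤ (μ m : Measure A) {a : A | ∃ i, n ≤ i ∧ (a : E) = x i} :=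
            measure_mono (by rintro a ⟨i, hi, h⟩; exact ⟨i, hm.trans hi, h⟩)
    exact h4.trans h3
  have hmono : Antitone fun n => {a : A | ∃ i, n ≤ i ∧ (a : E) = x i} :=
    fun m n hmn a ⟨i, hi, h⟩ => ⟨i, hmn.trans hi, h⟩
  have hlim := tendsto_measure_iInter_atTop (μ := (ν : Measure A))
    (s := fun n => {a : A | ∃ i, n ≤ i ∧ (a : E) = x i})
    (fun n => (hclosed n).measurableSet.nullMeasurableSet) hmono ⟨0, by simp⟩
  have hempty : (⋂ n, {a : A | ∃ i, n ≤ i ∧ (a : E) = x i}) = ∅ := by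
    ext a
    simp only [Set.mem_iInter, Set.mem_empty_iff_false, iff_false, not_forall]
    by_cases ha : ∃ i, (a : E) = x i
    · obtain ⟨i, hi⟩ := ha
      refine ⟨i + 1, ?_⟩
      rintro ⟨j, hj, hj'⟩
      have := hinj (hi.symm.trans hj')
      omega
    · exact ⟨0, fun ⟨i, _, h⟩ => ha ⟨i, h⟩⟩
  rw [hempty, measure_empty] at hlim
  have hlim2 : Tendsto (fun n : ℕ => (ν : Measure A) {a : A | ∃ i, n ≤ i ∧ (a : E) = x i}) atTop (𝓝 1) := by
    simp only [htail]
    exact tendsto_const_nhds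
  exact zero_ne_one (tendsto_nhds_unique hlim hlim2)

/-- Every mu-compact closed bounded convex subset of a uniformly convex Banach space is compact. -/
theorem compact_of_muCompact {p : ℝ} (hp : 1 < p) (hUC : UC E p) (A : Set E)
    (hcl : IsClosed A) (hbd : Bornology.IsBounded A) (hconv : Convex ℝ A) (hA : MuCompact A) :
    IsCompact A := by
  by_contra hnc
  -- a separated sequence
  have hsep : ∃ δ > 0, ∃ x : ℕ → E, (∀ n, x n ∈ A) ∧ ∀ m n, m ≠ n → δ ≤ dist (x m) (x n) := by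
    have hntb : ¬ TotallyBounded A := fun h =>
      hnc (isCompact_iff_totallyBounded_isComplete.2 ⟨h, hcl.isComplete⟩)
    rw [Metric.totallyBounded_iff] at hntb
    push Not at hntb
    obtain ⟨δ, hδ, h⟩ := hntb
    refine ⟨δ, hδ, ?_⟩
    obtain ⟨f, hf1, hf2⟩ := exists_seq_of_forall_finset_exists (fun a => a ∈ A) (fun a b => δ ≤ dist a b) (by
      intro s hs
      have := h (s : Set E) s.finite_toSet
      rw [Set.not_subset] at this
      obtain ⟨a, haA, ha⟩ := this
      refine ⟨a, haA, fun b hb => ?_⟩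
      simp only [Set.mem_iUnion, not_exists] at ha
      have := ha b hb
      rw [Metric.mem_ball, not_lt] at this
      rw [dist_comm]; exact this)
    refine ⟨f, hf1, fun m n hmn => ?_⟩
    rcases lt_or_gt_of_ne hmn with h1 | h1
    · exact hf2 m n h1
    · rw [dist_comm]; exact hf2 n m h1
  obtain ⟨δ, hδ, x, hxA, hx⟩ := hsep
  obtain ⟨R, hR⟩ := hbd.exists_norm_le
  have hR0 : 0 ≤ R := (norm_nonneg _).trans (hR (x 0) (hxA 0))
  set S : ℕ → Set E := fun n => convexHull ℝ (x '' {i | n ≤ i}) with hS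
  have hSA : ∀ n, S n ⊆ A := fun n => convexHull_min (by
    rintro _ ⟨i, _, rfl⟩; exact hxA i) hconv
  have hSmono : ∀ m n, m ≤ n → S n ⊆ S m := fun m n hmn =>
    convexHull_mono (Set.image_mono fun i (hi : n ≤ i) => hmn.trans hi)
  have hSne : ∀ n, (S n).Nonempty := fun n =>
    ⟨x n, subset_convexHull ℝ _ ⟨n, le_refl n, rfl⟩⟩
  set d : ℕ → ℝ := fun n => sInf (norm '' S n) with hd
  have hbdd : ∀ n, BddBelow (norm '' S n) := fun n => ⟨0, by
    rintro _ ⟨a, _, rfl⟩; exact norm_nonneg a⟩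
  have hdle : ∀ n, ∀ a ∈ S n, d n ≤ ‖a‖ := fun n a ha => csInf_le (hbdd n) ⟨a, ha, rfl⟩
  have hd0 : ∀ n, 0 ≤ d n := fun n => le_csInf ((hSne n).image _) (by
    rintro _ ⟨a, _, rfl⟩; exact norm_nonneg a)
  have hdR : ∀ n, d n ≤ R := fun n => by
    obtain ⟨a, ha⟩ := hSne n
    exact (hdle n a ha).trans (hR a (hSA n ha))
  have hdmono : Monotone d := fun m n hmn =>
    csInf_le_csInf (hbdd m) ((hSne n).image _) (Set.image_mono (hSmono m n hmn))
  have hdbdd : BddAbove (Set.range d) := ⟨R, by rintro _ ⟨n, rfl⟩; exact hdR n⟩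
  have hdlim := tendsto_atTop_ciSup hdmono hdbdd
  set D : ℝ := ⨆ n, d n with hD
  have hdD : ∀ n, d n ≤ D := fun n => le_ciSup hdbdd n
  have hDR : D ≤ R := ciSup_le hdR
  have hD0 : 0 ≤ D := (hd0 0).trans (hdD 0)
  have hy : ∀ n : ℕ, ∃ y ∈ S n, ‖y‖ < d n + 1 / ((n : ℝ) + 1) := by
    intro n
    have : d n < d n + 1 / ((n : ℝ) + 1) := by
      have : (0:ℝ) < 1 / ((n : ℝ) + 1) := by positivity
      linarith
    obtain ⟨_, ⟨a, ha, rfl⟩, h⟩ := exists_lt_of_csInf_lt ((hSne n).image _) this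
    exact ⟨a, ha, h⟩
  choose y hyS hylt using hy
  have hp0 : 0 < p := by linarith
  have hcauchy : CauchySeq y := by
    rw [Metric.cauchySeq_iff']
    intro η hη
    have hηp : 0 < η ^ p := Real.rpow_pos_of_pos hη p
    have hRp : 0 < (R + 1) ^ p := Real.rpow_pos_of_pos (by linarith) p
    obtain ⟨C, hC0, hC⟩ := hUC (η ^ p / (8 * (R + 1) ^ p)) (by positivity)
    have hlim : Tendsto (fun n : ℕ => C * ((D + 1 / ((n : ℝ) + 1)) ^ p - (d n) ^ p)) atTop (𝓝 0) := by
      have h1 : Tendsto (fun n : ℕ => (D + 1 / ((n : ℝ) + 1)) ^ p) atTop (𝓝 (D ^ p)) := by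
        have : Tendsto (fun n : ℕ => D + 1 / ((n : ℝ) + 1)) atTop (𝓝 (D + 0)) :=
          tendsto_const_nhds.add tendsto_one_div_add_atTop_nhds_zero_nat
        rw [add_zero] at this
        exact this.rpow_const (Or.inr hp0.le)
      have h2 : Tendsto (fun n : ℕ => (d n) ^ p) atTop (𝓝 (D ^ p)) :=
        hdlim.rpow_const (Or.inr hp0.le)
      have h3 := (h1.sub h2).const_mul C
      simpa using h3
    obtain ⟨N, hN⟩ := (hlim.eventually (gt_mem_nhds (show (0:ℝ) < η ^ p / 4 by positivity))).exists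
    refine ⟨N, fun n hn => ?_⟩
    rw [dist_eq_norm]
    have hynS : y n ∈ S N := hSmono N n hn (hyS n)
    have hmid : (1/2 : ℝ) • (y n + y N) ∈ S N := by
      have := (convex_convexHull ℝ (x '' {i | N ≤ i})) hynS (hyS N)
        (show (0:ℝ) ≤ 1/2 by norm_num) (show (0:ℝ) ≤ 1/2 by norm_num) (by norm_num)
      rw [smul_add]; exact this
    have hmid' := hdle N _ hmid
    have hNn : (1:ℝ) / ((n : ℝ) + 1) ≤ 1 / ((N : ℝ) + 1) := by
      apply one_div_le_one_div_of_le (by positivity)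
      have : (N : ℝ) ≤ n := by exact_mod_cast hn
      linarith
    have hN1 : (1:ℝ) / ((N : ℝ) + 1) ≤ 1 := by
      rw [div_le_one (by positivity)]
      have : (0:ℝ) ≤ N := Nat.cast_nonneg N
      linarith
    have hn1 : ‖y n‖ ≤ D + 1 / ((N : ℝ) + 1) := by
      have := hylt n; have := hdD n; linarith
    have hN2 : ‖y N‖ ≤ D + 1 / ((N : ℝ) + 1) := by
      have := hylt N; have := hdD N; linarith
    have e1 : ‖y n‖ ^ p ≤ (D + 1 / ((N : ℝ) + 1)) ^ p := Real.rpow_le_rpow (norm_nonneg _) hn1 hp0.le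
    have e2 : ‖y N‖ ^ p ≤ (D + 1 / ((N : ℝ) + 1)) ^ p := Real.rpow_le_rpow (norm_nonneg _) hN2 hp0.le
    have e3 : (d N) ^ p ≤ ‖(1/2 : ℝ) • (y n + y N)‖ ^ p := Real.rpow_le_rpow (hd0 N) hmid' hp0.le
    have e4 : (D + 1 / ((N : ℝ) + 1)) ^ p ≤ (R + 1) ^ p :=
      Real.rpow_le_rpow (by positivity) (by linarith) hp0.le
    have e5 := hC (y n) (y N)
    have e6 : η ^ p / (8 * (R + 1) ^ p) * (‖y n‖ ^ p + ‖y N‖ ^ p) ≤ η ^ p / 4 := by
      calc η ^ p / (8 * (R + 1) ^ p) * (‖y n‖ ^ p + ‖y N‖ ^ p)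
          ≤ η ^ p / (8 * (R + 1) ^ p) * ((R + 1) ^ p + (R + 1) ^ p) := by
            apply mul_le_mul_of_nonneg_left _ (by positivity)
            linarith
        _ = η ^ p / 4 := by field_simp; ring
    have e7 : C * (‖y n‖ ^ p / 2 + ‖y N‖ ^ p / 2 - ‖(1/2 : ℝ) • (y n + y N)‖ ^ p) ≤
        C * ((D + 1 / ((N : ℝ) + 1)) ^ p - (d N) ^ p) :=
      mul_le_mul_of_nonneg_left (by linarith) hC0
    have e8 : ‖y n - y N‖ ^ p < η ^ p := by linarith
    exact (Real.rpow_lt_rpow_iff (norm_nonneg _) hη.le hp0).1 e8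
  obtain ⟨z, hz⟩ := cauchySeq_tendsto_of_complete hcauchy
  have hyA : ∀ n, y n ∈ A := fun n => hSA n (hyS n)
  have hzA : z ∈ A := hcl.mem_of_tendsto hz (Eventually.of_forall hyA)
  refine no_escape A hA x hxA hδ hx y hyS (insert z (Set.range y)) ?_ hz.isCompact_insert_range
    (fun n => Or.inr ⟨n, rfl⟩)
  rintro a (rfl | ⟨n, rfl⟩)
  · exact hzA
  · exact hyA n

end tight

section pointwise

lemma half_add_rpow_lt {p : ℝ} (hp : 1 < p) {a b : ℝ} (hab : a ≠ b) :
    |(1/2) * (a + b)| ^ p < |a| ^ p / 2 + |b| ^ p / 2 := by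
  have hp0 : 0 < p := by linarith
  by_cases h : |a| = |b|
  · rcases abs_eq_abs.1 h with h1 | h1
    · exact absurd h1 hab
    · have hb : b ≠ 0 := by
        rintro rfl
        apply hab; rw [h1]; simp
      have : (1/2 : ℝ) * (a + b) = 0 := by rw [h1]; ring
      rw [this, abs_zero, Real.zero_rpow hp0.ne']
      have h2 : 0 < |b| ^ p := Real.rpow_pos_of_pos (abs_pos.2 hb) p
      have h3 : 0 ≤ |a| ^ p := Real.rpow_nonneg (abs_nonneg a) p
      linarith
  · have h1 := (strictConvexOn_rpow hp).2 (abs_nonneg a) (abs_nonneg b) h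
      (show (0:ℝ) < 1/2 by norm_num) (show (0:ℝ) < 1/2 by norm_num) (by norm_num)
    simp only [smul_eq_mul] at h1
    have h2 : |(1/2) * (a + b)| ≤ 1/2 * |a| + 1/2 * |b| := by
      rw [abs_mul, abs_of_pos (show (0:ℝ) < 1/2 by norm_num)]
      have := abs_add_le a b
      linarith
    have h3 := Real.rpow_le_rpow (abs_nonneg _) h2 hp0.le
    linarith

lemma pointwise_uc {p : ℝ} (hp : 1 < p) (ε : ℝ) (hε : 0 < ε) :
    ∃ C : ℝ, 0 ≤ C ∧ ∀ a b : ℝ,
      |a - b| ^ p ≤ ε * (|a| ^ p + |b| ^ p) + C * (|a| ^ p / 2 + |b| ^ p / 2 - |(1/2) * (a + b)| ^ p) := by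
  have hp0 : 0 < p := by linarith
  let φ : ℝ × ℝ → ℝ := fun q => |q.1| ^ p / 2 + |q.2| ^ p / 2 - |(1/2) * (q.1 + q.2)| ^ p
  have hφc : Continuous φ := by
    have h1 : Continuous fun q : ℝ × ℝ => |q.1| ^ p :=
      (continuous_fst.abs).rpow_const fun _ => Or.inr hp0.le
    have h2 : Continuous fun q : ℝ × ℝ => |q.2| ^ p :=
      (continuous_snd.abs).rpow_const fun _ => Or.inr hp0.le
    have h3 : Continuous fun q : ℝ × ℝ => |(1/2) * (q.1 + q.2)| ^ p :=
      ((continuous_const.mul (continuous_fst.add continuous_snd)).abs).rpow_const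
        fun _ => Or.inr hp0.le
    exact ((h1.div_const 2).add (h2.div_const 2)).sub h3
  have hφ0 : ∀ q, 0 ≤ φ q := by
    intro q
    by_cases h : q.1 = q.2
    · simp only [φ, h]
      have : (1/2 : ℝ) * (q.2 + q.2) = q.2 := by ring
      rw [this]; linarith
    · have := half_add_rpow_lt hp h
      simp only [φ]; linarith
  let T : Set (ℝ × ℝ) := Metric.sphere 0 1 ∩ {q | ε * (|q.1| ^ p + |q.2| ^ p) ≤ |q.1 - q.2| ^ p}
  have hT : IsCompact T := by
    refine (isCompact_sphere 0 1).inter_right ?_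
    have h1 : Continuous fun q : ℝ × ℝ => ε * (|q.1| ^ p + |q.2| ^ p) :=
      continuous_const.mul (((continuous_fst.abs).rpow_const fun _ => Or.inr hp0.le).add
        ((continuous_snd.abs).rpow_const fun _ => Or.inr hp0.le))
    have h2 : Continuous fun q : ℝ × ℝ => |q.1 - q.2| ^ p :=
      ((continuous_fst.sub continuous_snd).abs).rpow_const fun _ => Or.inr hp0.le
    exact isClosed_le h1 h2
  have hTpos : ∀ q ∈ T, 0 < φ q := by
    rintro ⟨a, b⟩ ⟨hq1, hq2⟩
    have hne : a ≠ b := by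
      rintro rfl
      simp only [mem_ofPred_eq, sub_self, abs_zero, Real.zero_rpow hp0.ne'] at hq2
      have h1 : 0 ≤ |a| ^ p := Real.rpow_nonneg (abs_nonneg a) p
      have h2 : |a| ^ p = 0 := by nlinarith
      have h3 : |a| = 0 := by
        rwa [Real.rpow_eq_zero (abs_nonneg a) hp0.ne'] at h2
      have h4 : a = 0 := abs_eq_zero.1 h3
      subst h4
      simp at hq1
    have := half_add_rpow_lt hp hne
    simp only [φ]; linarith
  have hc : ∃ c > 0, ∀ q ∈ T, c ≤ φ q := by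
    rcases T.eq_empty_or_nonempty with h | h
    · exact ⟨1, one_pos, by simp [h]⟩
    · obtain ⟨q0, hq0, hq0'⟩ := hT.exists_isMinOn h hφc.continuousOn
      exact ⟨φ q0, hTpos q0 hq0, fun q hq => hq0' hq⟩
  obtain ⟨c, hc0, hc⟩ := hc
  refine ⟨2 ^ p / c, by positivity, fun a b => ?_⟩
  -- normalised case
  have hnorm : ∀ a b : ℝ, ‖((a, b) : ℝ × ℝ)‖ = 1 →
      |a - b| ^ p ≤ ε * (|a| ^ p + |b| ^ p) + 2 ^ p / c * φ (a, b) := by
    intro a b hab
    by_cases h : (a, b) ∈ T
    · have h1 := hc _ h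
      have ha : |a| ≤ 1 := by
        have := norm_fst_le ((a, b) : ℝ × ℝ)
        rw [hab] at this; simpa using this
      have hb : |b| ≤ 1 := by
        have := norm_snd_le ((a, b) : ℝ × ℝ)
        rw [hab] at this; simpa using this
      have h2 : |a - b| ≤ 2 := by
        have := abs_sub a b
        linarith
      have h3 : |a - b| ^ p ≤ 2 ^ p := Real.rpow_le_rpow (abs_nonneg _) h2 hp0.le
      have h4 : (2:ℝ) ^ p ≤ 2 ^ p / c * φ (a, b) := by
        rw [div_mul_eq_mul_div, le_div_iff₀ hc0]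
        exact mul_le_mul_of_nonneg_left h1 (by positivity)
      have h5 : 0 ≤ ε * (|a| ^ p + |b| ^ p) := by positivity
      linarith
    · have h1 : ¬ (ε * (|a| ^ p + |b| ^ p) ≤ |a - b| ^ p) := by
        intro h2
        exact h ⟨by simpa using hab, h2⟩
      have h2 : 0 ≤ 2 ^ p / c * φ (a, b) := mul_nonneg (by positivity) (hφ0 _)
      linarith
  by_cases h0 : ((a, b) : ℝ × ℝ) = 0
  · rw [Prod.mk_eq_zero] at h0
    obtain ⟨rfl, rfl⟩ := h0
    simp [Real.zero_rpow hp0.ne']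
  · set r : ℝ := ‖((a, b) : ℝ × ℝ)‖ with hr
    have hr0 : 0 < r := norm_pos_iff.2 h0
    have h1 := hnorm (a / r) (b / r) (by
      have : ((a / r, b / r) : ℝ × ℝ) = (1 / r) • (a, b) := by
        ext <;> simp <;> ring
      rw [this, norm_smul, ← hr, norm_div, norm_one, Real.norm_of_nonneg hr0.le]
      field_simp)
    have hrp : 0 < r ^ p := Real.rpow_pos_of_pos hr0 p
    have ea : |a / r| ^ p = |a| ^ p / r ^ p := by
      rw [abs_div, abs_of_pos hr0, Real.div_rpow (abs_nonneg _) hr0.le]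
    have eb : |b / r| ^ p = |b| ^ p / r ^ p := by
      rw [abs_div, abs_of_pos hr0, Real.div_rpow (abs_nonneg _) hr0.le]
    have eab : |a / r - b / r| ^ p = |a - b| ^ p / r ^ p := by
      rw [← sub_div, abs_div, abs_of_pos hr0, Real.div_rpow (abs_nonneg _) hr0.le]
    have eab2 : |1 / 2 * (a / r + b / r)| ^ p = |1 / 2 * (a + b)| ^ p / r ^ p := by
      rw [← add_div, ← mul_div_assoc, abs_div, abs_of_pos hr0, Real.div_rpow (abs_nonneg _) hr0.le]
    simp only [φ] at h1
    rw [ea, eb, eab, eab2] at h1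
    have h2 := mul_le_mul_of_nonneg_right h1 hrp.le
    have e1 : |a - b| ^ p / r ^ p * r ^ p = |a - b| ^ p := by field_simp
    have e2 : (ε * (|a| ^ p / r ^ p + |b| ^ p / r ^ p) + 2 ^ p / c * (|a| ^ p / r ^ p / 2 + |b| ^ p / r ^ p / 2 - |1 / 2 * (a + b)| ^ p / r ^ p)) * r ^ p
      = ε * (|a| ^ p + |b| ^ p) + 2 ^ p / c * (|a| ^ p / 2 + |b| ^ p / 2 - |1 / 2 * (a + b)| ^ p) := by
      field_simp
    rw [e1, e2] at h2
    exact h2

end pointwise

lemma uc_lp (p : ℝ≥0∞) [Fact (1 ≤ p)] (hp1 : 1 < p) (hp2 : p ≠ ⊤) :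
    UC (lp (fun _ : ℕ => ℝ) p) p.toReal := by
  have hp : 1 < p.toReal := by
    rw [← ENNReal.toReal_one]
    exact (ENNReal.toReal_lt_toReal ENNReal.one_ne_top hp2).2 hp1
  have hp0 : 0 < p.toReal := by linarith
  intro ε hε
  obtain ⟨C, hC0, hC⟩ := pointwise_uc hp ε hε
  refine ⟨C, hC0, fun f g => ?_⟩
  have hs : ∀ f : lp (fun _ : ℕ => ℝ) p, Summable fun i => |f i| ^ p.toReal := by
    intro f
    have := (lp.memℓp f).summable hp0
    simpa [Real.norm_eq_abs] using this
  have hn : ∀ f : lp (fun _ : ℕ => ℝ) p, ‖f‖ ^ p.toReal = ∑' i, |f i| ^ p.toReal := by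
    intro f
    have := lp.norm_rpow_eq_tsum hp0 f
    simpa [Real.norm_eq_abs] using this
  rw [hn, hn, hn, hn]
  have h1 : ∀ i, |(f - g) i| ^ p.toReal ≤ ε * (|f i| ^ p.toReal + |g i| ^ p.toReal) +
      C * (|f i| ^ p.toReal / 2 + |g i| ^ p.toReal / 2 - |((1/2 : ℝ) • (f + g)) i| ^ p.toReal) := by
    intro i
    rw [lp.coeFn_smul, Pi.smul_apply, lp.coeFn_add, Pi.add_apply, smul_eq_mul, lp.coeFn_sub,
      Pi.sub_apply]
    exact hC (f i) (g i)
  have hsum : Summable fun i => ε * (|f i| ^ p.toReal + |g i| ^ p.toReal) +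
      C * (|f i| ^ p.toReal / 2 + |g i| ^ p.toReal / 2 - |((1/2 : ℝ) • (f + g)) i| ^ p.toReal) :=
    (((hs f).add (hs g)).mul_left ε).add
      (((((hs f).div_const 2).add ((hs g).div_const 2)).sub (hs _)).mul_left C)
  calc ∑' i, |(f - g) i| ^ p.toReal
      ≤ ∑' i, (ε * (|f i| ^ p.toReal + |g i| ^ p.toReal) +
      C * (|f i| ^ p.toReal / 2 + |g i| ^ p.toReal / 2 - |((1/2 : ℝ) • (f + g)) i| ^ p.toReal)) :=
        (hs (f - g)).tsum_le_tsum h1 hsum
    _ = _ := by
        rw [Summable.tsum_add (((hs f).add (hs g)).mul_left ε)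
          (((((hs f).div_const 2).add ((hs g).div_const 2)).sub (hs _)).mul_left C),
          tsum_mul_left, tsum_mul_left, Summable.tsum_add (hs f) (hs g),
          Summable.tsum_sub (((hs f).div_const 2).add ((hs g).div_const 2)) (hs _),
          Summable.tsum_add ((hs f).div_const 2) ((hs g).div_const 2), tsum_div_const, tsum_div_const]

lemma uc_Lp {Ω : Type*} [MeasurableSpace Ω] (μ : Measure Ω) (p : ℝ≥0∞) [Fact (1 ≤ p)]
    (hp1 : 1 < p) (hp2 : p ≠ ⊤) : UC (Lp ℝ p μ) p.toReal := by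
  have hp : 1 < p.toReal := by
    rw [← ENNReal.toReal_one]
    exact (ENNReal.toReal_lt_toReal ENNReal.one_ne_top hp2).2 hp1
  have hp0 : 0 < p.toReal := by linarith
  have hpz : p ≠ 0 := by
    rintro rfl; simp at hp1
  intro ε hε
  obtain ⟨C, hC0, hC⟩ := pointwise_uc hp ε hε
  refine ⟨C, hC0, fun f g => ?_⟩
  have hs : ∀ f : Lp ℝ p μ, Integrable (fun i => |f i| ^ p.toReal) μ := by
    intro f
    have := (Lp.memLp f).integrable_norm_rpow hpz hp2
    simpa [Real.norm_eq_abs] using this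
  have hn : ∀ f : Lp ℝ p μ, ‖f‖ ^ p.toReal = ∫ i, |f i| ^ p.toReal ∂μ := by
    intro f
    have h1 := (Lp.memLp f).eLpNorm_eq_integral_rpow_norm hpz hp2
    have h2 : 0 ≤ ∫ i, ‖f i‖ ^ p.toReal ∂μ := integral_nonneg fun i => by positivity
    rw [Lp.norm_def, h1, ENNReal.toReal_ofReal (by positivity), ← Real.rpow_mul h2,
      inv_mul_cancel₀ hp0.ne', Real.rpow_one]
    simp [Real.norm_eq_abs]
  have e1 : ∀ᵐ i ∂μ, |(f - g : Lp ℝ p μ) i| ^ p.toReal ≤ ε * (|f i| ^ p.toReal + |g i| ^ p.toReal) +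
      C * (|f i| ^ p.toReal / 2 + |g i| ^ p.toReal / 2 -
        |((1/2 : ℝ) • (f + g) : Lp ℝ p μ) i| ^ p.toReal) := by
    filter_upwards [Lp.coeFn_sub f g, Lp.coeFn_add f g, Lp.coeFn_smul (1/2 : ℝ) (f + g)]
      with i h1 h2 h3
    rw [h1, h3]
    simp only [Pi.smul_apply, Pi.sub_apply, smul_eq_mul, h2, Pi.add_apply]
    exact hC (f i) (g i)
  rw [hn, hn, hn, hn]
  calc ∫ i, |(f - g : Lp ℝ p μ) i| ^ p.toReal ∂μ
      ≤ ∫ i, (ε * (|f i| ^ p.toReal + |g i| ^ p.toReal) +
      C * (|f i| ^ p.toReal / 2 + |g i| ^ p.toReal / 2 -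
        |((1/2 : ℝ) • (f + g) : Lp ℝ p μ) i| ^ p.toReal)) ∂μ :=
        integral_mono_ae (hs _) ((((hs f).add (hs g)).const_mul ε).add
          (((((hs f).div_const 2).add ((hs g).div_const 2)).sub (hs _)).const_mul C)) e1
    _ = _ := by
        have i1 : Integrable (fun i => ε * (|f i| ^ p.toReal + |g i| ^ p.toReal)) μ :=
          ((hs f).add (hs g)).const_mul ε
        have i2 : Integrable (fun i => |f i| ^ p.toReal / 2 + |g i| ^ p.toReal / 2) μ :=
          ((hs f).div_const 2).add ((hs g).div_const 2)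
        have i3 : Integrable (fun i => |f i| ^ p.toReal / 2 + |g i| ^ p.toReal / 2 -
          |((1/2 : ℝ) • (f + g) : Lp ℝ p μ) i| ^ p.toReal) μ := i2.sub (hs _)
        rw [integral_add i1 (i3.const_mul C), integral_const_mul, integral_const_mul,
          integral_add (hs f) (hs g), integral_sub i2 (hs _),
          integral_add ((hs f).div_const 2) ((hs g).div_const 2), integral_div, integral_div]

/-- Answer to Q1: for `1 < p < ∞`, every mu-compact closed bounded convex set in `ℓ_p`, and every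
mu-compact closed bounded convex set in `L_p[0,1]`, is compact for the norm topology. -/
theorem result :
    (∀ (p : ℝ≥0∞) [Fact (1 ≤ p)], 1 < p → p ≠ ⊤ →
      MuCompactSetsAreCompact (lp (fun _ : ℕ => ℝ) p)) ∧
    (∀ (p : ℝ≥0∞) [Fact (1 ≤ p)], 1 < p → p ≠ ⊤ →
      MuCompactSetsAreCompact (Lp ℝ p (volume.restrict (Set.Icc (0 : ℝ) 1)))) := by
  refine ⟨?_, ?_⟩
  · intro p _ hp1 hp2 A _ hcl hbd hconv hA
    have hp : 1 < p.toReal := by
      rw [← ENNReal.toReal_one]
      exact (ENNReal.toReal_lt_toReal ENNReal.one_ne_top hp2).2 hp1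
    exact compact_of_muCompact hp (uc_lp p hp1 hp2) A hcl hbd hconv hA
  · intro p _ hp1 hp2 A _ hcl hbd hconv hA
    have hp : 1 < p.toReal := by
      rw [← ENNReal.toReal_one]
      exact (ENNReal.toReal_lt_toReal ENNReal.one_ne_top hp2).2 hp1
    exact compact_of_muCompact hp (uc_Lp _ p hp1 hp2) A hcl hbd hconv hA

end Pool.Agent.Results.MP_5b7a98_an.MuCompactIsCompact
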